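import Pool.Agent.helper55.GL.Spec

/-!
# Project gl (MP_51d945_co): FRO, the question in terms of graphs with a proper colouring
-/

set_option autoImplicit false

namespace Pool.Agent.GL

open SimpleGraph

theorem FRO_gr {X Y : Type} (R : X → Y → Prop) (a b : X ⊕ Y) :
    (Gr R).Adj a b ↔ (∃ x y, a = Sum.inl x ∧ b = Sum.inr y ∧ R x y) ∨
      ∃ x y, b = Sum.inl x ∧ a = Sum.inr y ∧ R x y := by
  unfold Gr
  rw [fromRel_adj]
  constructor
  · exact fun h => h.2
  · intro h
    refine ⟨?_, h⟩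
    rintro rfl
    rcases h with ⟨x, y, h1, h2, -⟩ | ⟨x, y, h1, h2, -⟩
    · rw [h1] at h2
      exact absurd h2 (by simp)
    · rw [h1] at h2
      exact absurd h2 (by simp)

theorem FRO_pr {X Y : Type} (R : X → Y → Prop) : Pr (Gr R) Sum.isLeft := by
  intro a b h
  rw [FRO_gr] at h
  rcases h with ⟨x, y, rfl, rfl, -⟩ | ⟨x, y, rfl, rfl, -⟩
  · simp
  · simp

theorem FRO_cp {X Y : Type} (R : X → Y → Prop) {n : ℕ} (B : Finset (Fin n × Fin n))
    (h : Cp (Gr R) Sum.isLeft Set.univ B) :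
    ∃ f : X ↪ Fin n, ∃ g : Y ↪ Fin n, ∀ x y, R x y → (f x, g y) ∈ B := by
  obtain ⟨φ, h1, h2⟩ := h
  refine ⟨⟨fun x => φ (Sum.inl x), fun x x' hx => ?_⟩, ⟨fun y => φ (Sum.inr y), fun y y' hy => ?_⟩,
    fun x y hxy => ?_⟩
  · exact Sum.inl_injective (h1 _ (Set.mem_univ _) _ (Set.mem_univ _) rfl hx)
  · exact Sum.inr_injective (h1 _ (Set.mem_univ _) _ (Set.mem_univ _) rfl hy)
  · refine h2 _ (Set.mem_univ _) _ (Set.mem_univ _) ?_ rfl rfl
    rw [FRO_gr]
    exact Or.inl ⟨x, y, rfl, rfl, hxy⟩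

/-- the classes of a colouring give back the graph. -/
noncomputable def FRO_eqv {V : Type} (c : V → Bool) :
    {a : V // c a = true} ⊕ {a : V // c a = false} ≃ V where
  toFun := Sum.elim Subtype.val Subtype.val
  invFun a := if h : c a = true then Sum.inl ⟨a, h⟩ else Sum.inr ⟨a, by simpa using h⟩
  left_inv := by
    rintro (⟨a, ha⟩ | ⟨a, ha⟩)
    · simp [ha]
    · simp [ha]
  right_inv := by
    intro a
    by_cases h : c a = true
    · simp [h]
    · simp [h]

theorem FRO_iso {V : Type} (H : SimpleGraph V) (c : V → Bool) (hc : Pr H c) :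
    Nonempty (Gr (fun (x : {a : V // c a = true}) (y : {a : V // c a = false}) =>
      H.Adj x.1 y.1) ≃g H) := by
  refine ⟨⟨FRO_eqv c, ?_⟩⟩
  intro a b
  rw [FRO_gr]
  rcases a with ⟨a, ha⟩ | ⟨a, ha⟩ <;> rcases b with ⟨b, hb⟩ | ⟨b, hb⟩
  · constructor
    · intro h
      exact absurd (ha.trans hb.symm) (hc _ _ h)
    · rintro (⟨x, y, -, h, -⟩ | ⟨x, y, -, h, -⟩) <;> exact absurd h (by simp)
  · constructor
    · intro h
      exact Or.inl ⟨⟨a, ha⟩, ⟨b, hb⟩, rfl, rfl, h⟩
    · rintro (⟨x, y, h, h', h''⟩ | ⟨x, y, h, -, -⟩)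
      · cases Sum.inl_injective h
        cases Sum.inr_injective h'
        exact h''
      · exact absurd h (by simp)
  · constructor
    · intro h
      exact Or.inr ⟨⟨b, hb⟩, ⟨a, ha⟩, rfl, rfl, h.symm⟩
    · rintro (⟨x, y, h, -, -⟩ | ⟨x, y, h, h', h''⟩)
      · exact absurd h (by simp)
      · cases Sum.inl_injective h
        cases Sum.inr_injective h'
        exact h''.symm
  · constructor
    · intro h
      exact absurd (ha.trans hb.symm) (hc _ _ h)
    · rintro (⟨x, y, h, -, -⟩ | ⟨x, y, h, -, -⟩) <;> exact absurd h (by simp)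

theorem FRO_cp' {V : Type} (H : SimpleGraph V) (c : V → Bool) {n : ℕ}
    (B : Finset (Fin n × Fin n))
    (h : ∃ f : {a : V // c a = true} ↪ Fin n, ∃ g : {a : V // c a = false} ↪ Fin n,
      ∀ x y, H.Adj x.1 y.1 → (f x, g y) ∈ B) : Cp H c Set.univ B := by
  obtain ⟨f, g, hfg⟩ := h
  refine ⟨fun a => if h : c a = true then f ⟨a, h⟩ else g ⟨a, by simpa using h⟩, ?_, ?_⟩
  · intro a _ b _ hab h
    dsimp only at h
    by_cases ha : c a = true
    · have hb : c b = true := hab ▸ ha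
      rw [dif_pos ha, dif_pos hb] at h
      exact congrArg Subtype.val (f.injective h)
    · have hb : ¬ c b = true := hab ▸ ha
      rw [dif_neg ha, dif_neg hb] at h
      exact congrArg Subtype.val (g.injective h)
  · intro a _ b _ hadj ha hb
    dsimp only
    have hb' : ¬ c b = true := by rw [hb]; simp
    rw [dif_pos ha, dif_neg hb']
    exact hfg ⟨a, ha⟩ ⟨b, hb⟩ hadj

theorem FRO : FRO_stmt := by
  classical
  constructor
  · intro hQ V _ H c hc
    obtain ⟨C, N, h⟩ := hQ {a : V // c a = true} {a : V // c a = false}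
      (fun x y => H.Adj x.1 y.1)
    refine ⟨⌈C⌉₊, N, fun n hn => ?_⟩
    unfold exs
    refine Finset.sup_le fun B hB => ?_
    rw [Finset.mem_filter] at hB
    have h1 := h n hn B (fun h' => hB.2 (FRO_cp' H c B h'))
    obtain ⟨e⟩ := FRO_iso H c hc
    have h2 : extremalNumber n (Gr (fun (x : {a : V // c a = true}) (y : {a : V // c a = false}) =>
      H.Adj x.1 y.1)) = extremalNumber n H := extremalNumber_congr_right e
    rw [h2] at h1
    have h3 : (B.card : ℝ) ≤ (⌈C⌉₊ : ℝ) * (extremalNumber n H : ℝ) :=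
      h1.trans (mul_le_mul_of_nonneg_right (Nat.le_ceil C) (Nat.cast_nonneg _))
    exact_mod_cast h3
  · intro hG X Y _ _ R
    obtain ⟨C, N, h⟩ := hG (X ⊕ Y) (Gr R) Sum.isLeft (FRO_pr R)
    refine ⟨C, N, fun n hn B hB => ?_⟩
    have h1 : B.card ≤ exs n (Gr R) Sum.isLeft Set.univ := by
      unfold exs
      refine Finset.le_sup (f := Finset.card) ?_
      rw [Finset.mem_filter]
      exact ⟨Finset.mem_univ _, fun hC => hB (FRO_cp R B hC)⟩
    exact_mod_cast h1.trans (h n hn)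

end Pool.Agent.GL
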